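import Pool.Agent.H69.Ecl3

set_option autoImplicit false

namespace Pool.Agent.Results.MP_b2345f_al.FreeProduct

open Pool.Agent.H69.Ecl

theorem result :
    ∃ (G : Type) (_ : Group G) (X : Finset G) (r : {x // x ∈ X} → {x // x ∈ X} → Prop),
      IsStrictTotalOrder {x // x ∈ X} r ∧ (∀ x ∈ X, x⁻¹ ∈ X) ∧
      Subgroup.closure (X : Set G) = ⊤ ∧
      (SL (Subtype.val : {x // x ∈ X} → G) r).IsRegular ∧
      (ECL (Subtype.val : {x // x ∈ X} → G) r).IsRegular ∧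
      ∀ R : (Σ _ : Fin 2, {x // x ∈ X}) → (Σ _ : Fin 2, {x // x ∈ X}) → Prop,
        ¬ (ECL (fun s : (Σ _ : Fin 2, {x // x ∈ X}) =>
          Monoid.CoprodI.of (M := fun _ : Fin 2 => G) (i := s.1) s.2.1) R).IsRegular :=
  ⟨G0, inferInstance, X, r, r_sto, X_inv, X_gen, SL_reg, ECL_reg, not_reg⟩

end Pool.Agent.Results.MP_b2345f_al.FreeProduct
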